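import Pool.Agent.Helper28.TK.StK

/-!
# Project TK, module TLE: the entire continuation of the twisted L-function, weight `2A+2`
-/

set_option autoImplicit false

namespace Pool.Agent.Helper33.TK

open Pool.Agent.Helper28.TK Pool.Agent.Helper14.WK
open Pool.Agent.Helper76.TX (tau StAN3)

private theorem tleTerm (G t c a w s e : ℂ) (m : ℕ) (hG : G ≠ 0) (ht : t ≠ 0) (hw : w = s + e)
    (hw0 : w ≠ 0) (he : e ≠ 0) :
    G * (t * c * a) / ((2 * Real.pi * m : ℝ) : ℂ) ^ w *
      (((2 * Real.pi : ℝ) : ℂ) ^ w * G⁻¹ / t) = c * a / (m : ℂ) ^ e / (m : ℂ) ^ s := by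
  rcases Nat.eq_zero_or_pos m with rfl | hm
  · have h1 : ((2 * Real.pi * ((0 : ℕ) : ℝ) : ℝ) : ℂ) = 0 := by simp
    rw [h1, Complex.zero_cpow hw0, div_zero, zero_mul, Nat.cast_zero,
      Complex.zero_cpow he, div_zero, zero_div]
  · have hmC : (m : ℂ) ≠ 0 := by exact_mod_cast hm.ne'
    have hp : (0 : ℝ) ≤ 2 * Real.pi := by positivity
    have hm0 : (0 : ℝ) ≤ (m : ℝ) := by positivity
    have h2 : ((2 * Real.pi * m : ℝ) : ℂ) ^ w =
        ((2 * Real.pi : ℝ) : ℂ) ^ w * ((m : ℝ) : ℂ) ^ w := by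
      rw [← Complex.mul_cpow_ofReal_nonneg hp hm0]
      push_cast
      rfl
    have h3 : ((2 * Real.pi : ℝ) : ℂ) ^ w ≠ 0 := by
      rw [Complex.cpow_ne_zero_iff]
      left
      exact_mod_cast (by positivity : (2 * Real.pi : ℝ) ≠ 0)
    have h4 : ((m : ℝ) : ℂ) = (m : ℂ) := by push_cast; rfl
    have h5 : (m : ℂ) ^ s ≠ 0 := by
      rw [Complex.cpow_ne_zero_iff]
      exact Or.inl hmC
    have h6 : (m : ℂ) ^ e ≠ 0 := by
      rw [Complex.cpow_ne_zero_iff]
      exact Or.inl hmC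
    have h7 : (m : ℂ) ^ w = (m : ℂ) ^ s * (m : ℂ) ^ e := by
      rw [hw, Complex.cpow_add _ _ hmC]
    rw [h2, h4, h7]
    field_simp

theorem hTLE : StTLE := by
  intro _ h5 h6 h3 N hN A f D hD χ hχ
  obtain ⟨htau, -⟩ := h3 D hD χ hχ
  have hM := (h6 N hN A f D hD χ).1
  set e : ℂ := (A : ℂ) + 1 / 2 with he
  have hee : (((2 * (A : ℤ) + 2 : ℤ) : ℂ) - 1) / 2 = e := by
    rw [he]
    push_cast
    ring
  have here : e.re = (A : ℝ) + 1 / 2 := by
    rw [he, Complex.add_re, Complex.natCast_re]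
    norm_num
  have hA0 : (0 : ℝ) ≤ (A : ℝ) := by positivity
  have he0 : e ≠ 0 := by
    intro h
    have h1 := congrArg Complex.re h
    rw [here, Complex.zero_re] at h1
    linarith
  refine ⟨fun s => mellin (hXK χ f) (s + e) *
    (((2 * Real.pi : ℝ) : ℂ) ^ (s + e) * (Complex.Gamma (s + e))⁻¹ / tau χ), ?_, ?_⟩
  · have h2 : Differentiable ℂ fun s : ℂ => s + e := by fun_prop
    have hG : Differentiable ℂ fun s : ℂ => (Complex.Gamma (s + e))⁻¹ :=
      Complex.differentiable_one_div_Gamma.comp h2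
    have hP : Differentiable ℂ fun s : ℂ => ((2 * Real.pi : ℝ) : ℂ) ^ (s + e) := by
      refine h2.const_cpow (Or.inl ?_)
      exact_mod_cast (by positivity : (2 * Real.pi : ℝ) ≠ 0)
    exact (hM.comp h2).mul ((hP.mul hG).div_const _)
  · intro s hs
    have hre : (s + e).re = s.re + (A + 1 / 2) := by
      rw [Complex.add_re, here]
    have hGa : Complex.Gamma (s + e) ≠ 0 :=
      Complex.Gamma_ne_zero_of_re_pos (by rw [hre]; linarith)
    have hw0 : s + e ≠ 0 := by
      intro h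
      have h1 := congrArg Complex.re h
      rw [hre, Complex.zero_re] at h1
      linarith
    have h := h5 N hN A f D hD χ hχ (s + e) (by rw [hre]; linarith)
    have h' := h.mul_right
      (((2 * Real.pi : ℝ) : ℂ) ^ (s + e) * (Complex.Gamma (s + e))⁻¹ / tau χ)
    refine h'.congr_fun ?_
    intro m
    rw [hee]
    exact (tleTerm _ _ _ _ _ _ _ m hGa htau rfl hw0 he0).symm

end Pool.Agent.Helper33.TK
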